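import Pool.Agent.Lib.Pa76659P.PLim
import Pool.Agent.Lib.Pa76659P.Member

/-!
There is an oracle `X` relative to which the polynomial hierarchy is infinite and all inclusions
between neighbours in the refined low hierarchy and in the refined high hierarchy are proper
(except `L_0 = \hat L_1` and `H_0 = \hat H_1`, which always hold).
-/

namespace Pool.Agent.Results.MP_a76659_lc.AllProper

open Pool.Agent.Lib.Pa76659 Pool.Agent.Lib.Pa76659P

theorem result : ∃ X : Lang, (∀ k, Sig X k ≠ Sig X (k + 1)) ∧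
    (∀ k, Low X (k + 1) ⊂ RLowSucc X (k + 1)) ∧ (∀ k, RLowSucc X k ⊂ Low X (k + 1)) ∧
    (∀ k, High X (k + 1) ⊂ RHighSucc X (k + 1)) ∧ (∀ k, RHighSucc X k ⊂ High X (k + 1)) := by
  obtain ⟨Bp, X, hX⟩ := exists_spec
  exact ⟨X, allProper_of_spec hX⟩

end Pool.Agent.Results.MP_a76659_lc.AllProper
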