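import Pool.Agent.Lib.Pa76659B.Main2

/-!
There is ONE oracle `X` relative to which the polynomial hierarchy is infinite while all classes of
the (refined) low hierarchy in `NP` are equal to `P` and all classes of the (refined) high hierarchy
consist of the Turing complete sets of `NP` only: all inclusions of Q1 and of Q2 are equalities at
the same oracle.
-/

namespace Pool.Agent.Results.MP_a76659_lc.BothTrivial

open Pool.Agent.Lib.Pa76659 Pool.Agent.Lib.Pa76659H Pool.Agent.Lib.Pa76659B

theorem result : ∃ X : Lang, (∀ k, Sig X k ≠ Sig X (k + 1)) ∧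
    (∀ k, Low X k = PO X) ∧ (∀ k, RLowSucc X k = PO X) ∧
    (∀ k, High X k = TComp X) ∧ (∀ k, RHighSucc X k = TComp X) := bothCollapse

end Pool.Agent.Results.MP_a76659_lc.BothTrivial
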