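import Pool.Agent.Lib.Pa76659G.UoV
import Pool.Agent.Lib.Pa76659G.UoW

/-!
Properness of the four inclusions of the low hierarchy at `k = 2, 3`, from hypotheses on PH.
-/

namespace Pool.Agent.Results.MP_a76659_lc.FourHypotheses

open Pool.Agent.Lib.Pa76659 Pool.Agent.Lib.Pa76659G

/-- For every oracle `X` (for the empty oracle these are the unrelativised classes):
(1) if `L_1 = \hat L_2` then `E^NP = NE`;
(2) if `\hat L_2 = L_2` then (a) all functions `1^n ↦ u(n)` of polynomial length with graph in `coNP`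
are in `FP^NP`; (b) some language in `E^NP` has no circuits with fewer than `2^n / (2 n + 2) - 1`
gates, for all `n`;
(3) if `L_2 = \hat L_3` then the polynomially many `coNP` witnesses of a unary language in `Σ_2` can be
counted in `Σ_2 ∩ Π_2`; in particular the unary languages in `Few Σ_2` are in `Π_2`;
(4) the sets in `NP` which are decided in `P` with advice of polynomial length are in `L_3`; they are in
`\hat L_3` if and only if they are decided, by the same language in `P`, with advice computable from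
`1^n` in `FP^{Σ_2}`;
(5) if `L_1 = L_2` then some language in `NE ∩ coNE` has no circuits as in (2b). -/
theorem result (X : Lang) :
    (Low X 1 = RLowSucc X 1 → ENP X = NEO X) ∧
    (RLowSucc X 1 = Low X 2 →
      (∀ (q : Polynomial ℕ) (u : ℕ → Str), (∀ n, (u n).length = q.eval n) →
        (∃ A ∈ NPO X, ∀ (n : ℕ) (v : Str), v.length = q.eval n →
          (A (pr (on1 n) v) = false ↔ v = u n)) →
        ∃ B ∈ NPO X, ∃ f ∈ FPO B, ∀ n, f (on1 n) = u n) ∧
      ∃ L ∈ ENP X, ∀ (n : ℕ) (C : List Gate), (∀ x : Str, x.length = n → cval C x = L x) →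
        2 ^ n ≤ (2 * n + 2) * (C.length + 1)) ∧
    (Low X 2 = RLowSucc X 2 → ∀ A ∈ NPO X, ∀ q s : Polynomial ℕ,
      (∀ n, {y : Str | y.length = q.eval n ∧ A (pr (on1 n) y) = false}.ncard ≤ s.eval n) →
      ∃ B ∈ Sig X 2, ∀ n k : ℕ, B (pr (on1 n) (on1 k)) = true ↔
        {y : Str | y.length = q.eval n ∧ A (pr (on1 n) y) = false}.ncard < k) ∧
    (∀ A ∈ NPO X, ∀ L ∈ PO X, ∀ (h : ℕ → Str) (r : Polynomial ℕ),
      (∀ n, (h n).length ≤ r.eval n) → (∀ x, A x = L (pr x (h x.length))) →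
      A ∈ Low X 3 ∧ (A ∈ RLowSucc X 2 ↔
        ∃ B ∈ Sig X 2, ∃ f ∈ FPO B, ∀ x, A x = L (pr x (f (on1 x.length))))) ∧
    (Low X 1 = Low X 2 → ∃ L ∈ NEO X, (fun x => !(L x)) ∈ NEO X ∧
      ∀ (n : ℕ) (C : List Gate), (∀ x : Str, x.length = n → cval C x = L x) →
        2 ^ n ≤ (2 * n + 2) * (C.length + 1)) :=
  ⟨Circ.ENP_eq, fun h => ⟨((cost_two X).2.1 h).1, ((cost_two X).2.1 h).2.2⟩,
    fun h _ hA q s hs => Uo.u6 h.symm.subset hA q s hs,
    fun _ hA _ hL _ _ hh hAL => Uo.circ_iff hA hL hh hAL, (cost_two X).2.2⟩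

end Pool.Agent.Results.MP_a76659_lc.FourHypotheses
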