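import Pool.Agent.Lib.Pa76659G.Final3

/-!
The low hierarchy relative to generic oracles.
-/

namespace Pool.Agent.Results.MP_a76659_lc.GenericLow

open Pool.Agent.Lib.Pa76659 Pool.Agent.Lib.Pa76659G

/-- For every base oracle `Y` and comeager many oracles `G`, relative to `X = Y ⊕ G`: the polynomial
hierarchy is infinite, `L_1 ⊂ \hat L_2 ⊂ L_2 ⊂ \hat L_3 ⊂ L_3 = \hat L_4 = L_4 = \hat L_5 = …`, and a
set in `NP` is in `L_1`, `\hat L_2`, `L_2`, `L_3` if and only if its complement is in `NP`, in `NP`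
with advice computable in `FP^NP`, in `NP` with advice checkable in `coNP`, in `NP/poly`. -/
theorem result (Y : Lang) : ∀ᶠ G in residual Lang, ∀ X, X = join Y G →
    (∀ k, Sig X k ≠ Sig X (k + 1)) ∧
    Low X 1 ⊂ RLowSucc X 1 ∧ RLowSucc X 1 ⊂ Low X 2 ∧ Low X 2 ⊂ RLowSucc X 2 ∧
    RLowSucc X 2 ⊂ Low X 3 ∧
    (∀ k, 3 ≤ k → Low X k = RLowSucc X k ∧ RLowSucc X k = Low X (k + 1)) ∧
    Low X 1 = {A | A ∈ NPO X ∧ (fun x => !(A x)) ∈ NPO X} ∧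
    RLowSucc X 1 = {A | A ∈ NPO X ∧ (fun x => !(A x)) ∈ NPAdv X 1} ∧
    Low X 2 = {A | A ∈ NPO X ∧ (fun x => !(A x)) ∈ NPChk X} ∧
    Low X 3 = {A | A ∈ NPO X ∧ (fun x => !(A x)) ∈ NPPoly X} :=
  generic_chain Y

end Pool.Agent.Results.MP_a76659_lc.GenericLow
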