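import Pool.Agent.Lib.Pa76659G.HfFinal2

/-!
The price of the equality `\hat H_1 = H_1`.
-/

namespace Pool.Agent.Results.MP_a76659_lc.HighCost

open Pool.Agent.Lib.Pa76659 Pool.Agent.Lib.Pa76659G Pool.Agent.Lib.Pa76659H

/-- For every oracle `X` (for the empty oracle these are the unrelativised classes):
`\hat H_1 = H_1` implies
(A) every `L` in `O_2^p` or `BPP` is decided in time `2^(c n^(1/k))`, for every `k`: some `F` in `P`
has `F (1^n, x) = L x` whenever `|x| ≤ n` and `|x| ≤ (log n)^k`;
(B) some `L` in `E` has, for each `e`, no circuits with at most `n^e` gates at all large lengths `n`;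
(C) for every Turing complete set `K` in `NP` all functions in `FP^NP` are computed on unary inputs
`1^n` in polynomial time with `K`-queries of length at most `n^(1/k)`, for every `k`.
(C) is exact for sets with hints: for every Turing complete set `K` all sets with hints `hint K I q`,
`I` in `NP`, are in `H_1`, and the following are equivalent: the sets with hints in `FP^NP` are
Turing complete; all sets in `NP` which are Turing complete with unary advice in `FP^NP` are Turing
complete; (C) for `K` and `k = 2`; (C) for `K`. -/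
theorem result (X : Lang) :
    (RHighSucc X 0 = High X 1 →
      (∀ L ∈ OTwo X ∪ BPPO X, ∀ k : ℕ, ∃ F ∈ PO X, ∀ (n : ℕ) (x : Str), x.length ≤ n →
        x.length ≤ Nat.log 2 n ^ k → F (pr (on1 n) x) = L x) ∧
      (∃ L ∈ EO X, ∀ e : ℕ, ∃ n0 : ℕ, ∀ n ≥ n0, ∀ C : List Gate,
        (∀ x : Str, x.length = n → cval C x = L x) → n ^ e < C.length) ∧
      ∀ K ∈ RHighSucc X 0, ∀ k, ShortAll X K k) ∧
    ∀ K ∈ RHighSucc X 0,
      (∀ I ∈ NPO X, ∀ q : Polynomial ℕ,
        (∀ m : ℕ, ∃ y : Str, y.length = q.eval m ∧ I (pr (on1 m) y) = false) →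
          hint K I q ∈ High X 1) ∧
      List.TFAE [HintsComplete X K, AdviceComplete X K, ShortAll X K 2,
        ∀ k, ShortAll X K k] :=
  cost_high2 X

end Pool.Agent.Results.MP_a76659_lc.HighCost
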