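import Pool.Agent.Lib.Pa76659I.Main

/-!
For every `m` there is an oracle relative to which the polynomial hierarchy is infinite and exactly
the first `m` inclusions of the refined high hierarchy in `NP`
`hat-H_1 ⊆ H_1 ⊆ hat-H_2 ⊆ H_2 ⊆ hat-H_3 ⊆ ...`
are proper; all later inclusions are equalities.
-/

namespace Pool.Agent.Results.MP_a76659_lc.HighInitial

open Pool.Agent.Lib.Pa76659 Pool.Agent.Lib.Pa76659H

theorem result (m : ℕ) : ∃ X : Lang, (∀ k, Sig X k ≠ Sig X (k + 1)) ∧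
    (∀ k, (2 * k < m → RHighSucc X k ⊂ High X (k + 1)) ∧
      (m ≤ 2 * k → RHighSucc X k = High X (k + 1))) ∧
    (∀ k, (2 * k + 1 < m → High X (k + 1) ⊂ RHighSucc X (k + 1)) ∧
      (m ≤ 2 * k + 1 → High X (k + 1) = RHighSucc X (k + 1))) := by
  obtain ⟨X, h1, h2, h3⟩ := Pool.Agent.Lib.Pa76659I.initial m
  have e0 : ∀ k, Pool.Agent.Lib.Pa76659I.HC X (2 * k) = RHighSucc X k := by
    intro k
    unfold Pool.Agent.Lib.Pa76659I.HC
    rw [if_pos (by omega), show 2 * k / 2 = k by omega]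
  have e1 : ∀ k, Pool.Agent.Lib.Pa76659I.HC X (2 * k + 1) = High X (k + 1) := by
    intro k
    unfold Pool.Agent.Lib.Pa76659I.HC
    rw [if_neg (by omega), show (2 * k + 1 + 1) / 2 = k + 1 by omega]
  refine ⟨X, h1, fun k => ⟨fun h => ?_, fun h => ?_⟩, fun k => ⟨fun h => ?_, fun h => ?_⟩⟩
  · have := h2 (2 * k) h
    rwa [e0, e1] at this
  · have := h3 (2 * k) h
    rwa [e0, e1] at this
  · have := h2 (2 * k + 1) h
    rwa [e1, show 2 * k + 1 + 1 = 2 * (k + 1) by ring, e0] at this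
  · have := h3 (2 * k + 1) h
    rwa [e1, show 2 * k + 1 + 1 = 2 * (k + 1) by ring, e0] at this

end Pool.Agent.Results.MP_a76659_lc.HighInitial
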