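import Pool.Agent.Lib.Pa76659G.Final2

/-!
Relativisably low sets, and the comparison of two oracles in presence of all further oracles.
-/

namespace Pool.Agent.Results.MP_a76659_lc.RelativisablyLow

open Pool.Agent.Lib.Pa76659 Pool.Agent.Lib.Pa76659G

/-- Let `B` be in `NP(A)`. The inclusion `Σ_k(B ⊕ X) ⊆ Σ_k(A ⊕ X)` (or the same with `Δ_{k+1}`) for
all oracles `X` is equivalent to a condition on the complement of `B`: to be in `NP(A)`, in `NP(A)`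
with advice computable in `FP^NP(A)`, in `NP(A)` with advice checkable in `coNP(A)`, in
`NP(A)/poly`. In particular the sets which are in `L_k`, or in `\hat L_k`, relative to every oracle
are characterised in this way, and for `k ≥ 3` (`k ≥ 4`) these are the sets in `NP ∩ coNP/poly`. -/
theorem result :
    -- comparison of two oracles
    (∀ A B : Lang, B ∈ NPO A →
      ((∀ X, Sig (join B X) 0 ⊆ Sig (join A X) 0) ↔ B ∈ PO A) ∧
      ((∀ X, Sig (join B X) 1 ⊆ Sig (join A X) 1) ↔ (fun x => !(B x)) ∈ NPO A) ∧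
      ((∀ X, DelSucc (join B X) 1 ⊆ DelSucc (join A X) 1) ↔ (fun x => !(B x)) ∈ NPAdv A 1) ∧
      ((∀ X, Sig (join B X) 2 ⊆ Sig (join A X) 2) ↔ (fun x => !(B x)) ∈ NPChk A) ∧
      (∀ k, 3 ≤ k →
        ((∀ X, Sig (join B X) k ⊆ Sig (join A X) k) ↔ (fun x => !(B x)) ∈ NPPoly A) ∧
        ((∀ X, DelSucc (join B X) k ⊆ DelSucc (join A X) k) ↔ (fun x => !(B x)) ∈ NPPoly A)) ∧
      (¬ IsMeagre {X : Lang | ∃ m, Sig (join B X) m ⊆ Sig (join A X) m} ↔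
        (fun x => !(B x)) ∈ NPPoly A)) ∧
    -- the low classes relative to all oracles
    (∀ B, (∀ X, B ∈ Low X 0) ↔ B ∈ PO emp) ∧
    (∀ B, (∀ X, B ∈ Low X 1) ↔ B ∈ NPO emp ∧ (fun x => !(B x)) ∈ NPO emp) ∧
    (∀ B, (∀ X, B ∈ RLowSucc X 1) ↔ B ∈ NPO emp ∧ (fun x => !(B x)) ∈ NPAdv emp 1) ∧
    (∀ B, (∀ X, B ∈ Low X 2) ↔ B ∈ NPO emp ∧ (fun x => !(B x)) ∈ NPChk emp) ∧
    (∀ B, B ∈ NPO emp → (fun x => !(B x)) ∈ NPAdv emp 2 → ∀ X, B ∈ RLowSucc X 2) ∧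
    (∀ k, 3 ≤ k → ∀ B,
      ((∀ X, B ∈ Low X k) ↔ B ∈ NPO emp ∧ (fun x => !(B x)) ∈ NPPoly emp) ∧
      ((∀ X, B ∈ RLowSucc X k) ↔ B ∈ NPO emp ∧ (fun x => !(B x)) ∈ NPPoly emp)) :=
  ⟨fun A B hB => ⟨cmp0 A B, cmp1 A B hB, cmpD1 A B hB, cmp2 A B hB,
    fun k hk => ⟨(cmp_iff A B hB k hk).1, (cmp_iff A B hB k hk).2.1⟩,
    (cmp_iff A B hB 3 le_rfl).2.2⟩, all_classes⟩

end Pool.Agent.Results.MP_a76659_lc.RelativisablyLow
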