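import Pool.Agent.Lib.Pa76659G.UoV

/-!
Properness of three inclusions of the low hierarchy from hypotheses on unary inputs.
-/

namespace Pool.Agent.Results.MP_a76659_lc.UnaryHypotheses

open Pool.Agent.Lib.Pa76659 Pool.Agent.Lib.Pa76659G

/-- For every oracle `X` (for the empty oracle these are the unrelativised classes):
(1) if `L_1 = \hat L_2` then `E^NP = NE`;
(2) if `\hat L_2 = L_2` then all functions `1^n ↦ u(n)` of polynomial length with graph in `coNP` are in
`FP^NP`; for every `F` in `FP` with `|F(x)| = |x| + 1` some function in `FP^NP` maps every `1^n` to a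
string of length `n + 1` outside the range of `F`; some language in `E^NP` has no circuits with fewer
than `2^n / (2 n + 2) - 1` gates, for all `n`;
(3) if `L_2 = \hat L_3` then the polynomially many `coNP` witnesses of a unary language in `Σ_2` can be
counted in `Σ_2 ∩ Π_2`; in particular the unary languages in `Few Σ_2` are in `Π_2`;
(4) if `L_1 = L_2` then some language in `NE ∩ coNE` has no circuits as in (2). -/
theorem result (X : Lang) :
    (Low X 1 = RLowSucc X 1 → ENP X = NEO X) ∧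
    (RLowSucc X 1 = Low X 2 →
      (∀ (q : Polynomial ℕ) (u : ℕ → Str), (∀ n, (u n).length = q.eval n) →
        (∃ A ∈ NPO X, ∀ (n : ℕ) (v : Str), v.length = q.eval n →
          (A (pr (on1 n) v) = false ↔ v = u n)) →
        ∃ B ∈ NPO X, ∃ f ∈ FPO B, ∀ n, f (on1 n) = u n) ∧
      (∀ F ∈ FPO X, (∀ x, (F x).length = x.length + 1) →
        ∃ B ∈ NPO X, ∃ f ∈ FPO B, ∀ n, (f (on1 n)).length = n + 1 ∧
          ∀ x : Str, x.length = n → F x ≠ f (on1 n)) ∧
      ∃ L ∈ ENP X, ∀ (n : ℕ) (C : List Gate), (∀ x : Str, x.length = n → cval C x = L x) →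
        2 ^ n ≤ (2 * n + 2) * (C.length + 1)) ∧
    (Low X 2 = RLowSucc X 2 → ∀ A ∈ NPO X, ∀ q s : Polynomial ℕ,
      (∀ n, {y : Str | y.length = q.eval n ∧ A (pr (on1 n) y) = false}.ncard ≤ s.eval n) →
      ∃ B ∈ Sig X 2, ∀ n k : ℕ, B (pr (on1 n) (on1 k)) = true ↔
        {y : Str | y.length = q.eval n ∧ A (pr (on1 n) y) = false}.ncard < k) ∧
    (Low X 1 = Low X 2 → ∃ L ∈ NEO X, (fun x => !(L x)) ∈ NEO X ∧
      ∀ (n : ℕ) (C : List Gate), (∀ x : Str, x.length = n → cval C x = L x) →
        2 ^ n ≤ (2 * n + 2) * (C.length + 1)) :=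
  ⟨Circ.ENP_eq, (cost_two X).2.1, fun h _ hA q s hs => Uo.u6 h.symm.subset hA q s hs,
    (cost_two X).2.2⟩

end Pool.Agent.Results.MP_a76659_lc.UnaryHypotheses
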