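import Pool.Agent.Lib.Pa76659G.HhA

/-!
Properness of `\hat H_1 ⊆ H_1` from worst-case hypotheses.
-/

namespace Pool.Agent.Results.MP_a76659_lc.WorstCaseHigh

open Pool.Agent.Lib.Pa76659 Pool.Agent.Lib.Pa76659G Pool.Agent.Lib.Pa76659H

/-- For every oracle `X` (for the empty oracle these are the unrelativised classes):
`\hat H_1 = H_1` implies
(A) every `L` in `E^NP` is decided in time `2^(c 2^(n/k))`, for every `k`: some `F` in `P` has
`F (1^n, x) = L x` whenever `2^|x| ≤ (log n)^k`;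
(B) every `L` in `O_2^p` or `BPP` is decided in time `2^(c n^(1/k))`, for every `k`: some `F` in `P`
has `F (1^n, x) = L x` whenever `|x| ≤ n` and `|x| ≤ (log n)^k`;
(C) some `L` in `E` has, for each `e`, no circuits with at most `n^e` gates at all large lengths `n`;
(D) for every Turing complete set `K` in `NP` all functions in `FP^NP` are computed on unary inputs
`1^n` in polynomial time with `K`-queries of length at most `n^(1/k)`, for every `k`.
(D) is exact for sets with hints: for every Turing complete set `K` all sets with hints `hint K I q`,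
`I` in `NP`, are in `H_1`, and the following are equivalent: the sets with hints in `FP^NP` are
Turing complete; (D) for `K` and `k = 2`; (D) for `K`. -/
theorem result (X : Lang) :
    (RHighSucc X 0 = High X 1 →
      (∀ L ∈ ENP X, ∀ k : ℕ, ∃ F ∈ PO X, ∀ (n : ℕ) (x : Str),
        2 ^ x.length ≤ Nat.log 2 n ^ k → F (pr (on1 n) x) = L x) ∧
      (∀ L ∈ OTwo X ∪ BPPO X, ∀ k : ℕ, ∃ F ∈ PO X, ∀ (n : ℕ) (x : Str), x.length ≤ n →
        x.length ≤ Nat.log 2 n ^ k → F (pr (on1 n) x) = L x) ∧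
      (∃ L ∈ EO X, ∀ e : ℕ, ∃ n0 : ℕ, ∀ n ≥ n0, ∀ C : List Gate,
        (∀ x : Str, x.length = n → cval C x = L x) → n ^ e < C.length) ∧
      ∀ K ∈ RHighSucc X 0, ∀ k, ShortAll X K k) ∧
    ∀ K ∈ RHighSucc X 0,
      (∀ I ∈ NPO X, ∀ q : Polynomial ℕ,
        (∀ m : ℕ, ∃ y : Str, y.length = q.eval m ∧ I (pr (on1 m) y) = false) →
          hint K I q ∈ High X 1) ∧
      List.TFAE [HintsComplete X K, ShortAll X K 2, ∀ k, ShortAll X K k] := by
  obtain ⟨h1, h2⟩ := cost_high2 X
  refine ⟨fun h => ⟨fun L hL k => Hh.enp h.ge hL k, h1 h⟩, fun K hK => ⟨(h2 K hK).1, ?_⟩⟩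
  have h3 := (h2 K hK).2
  tfae_have 1 ↔ 2 := h3.out 0 2
  tfae_have 2 ↔ 3 := h3.out 2 3
  tfae_finish

end Pool.Agent.Results.MP_a76659_lc.WorstCaseHigh
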